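import Pool.Agent.Run7.h943.FP.Stm
import Pool.Agent.N521.FL.PLE

/-!
# Project of helper943 (planar first-passage percolation), piece SQ (helper416)
-/

set_option autoImplicit false

namespace Run7.h416.FP

open MeasureTheory ProbabilityTheory Set
open scoped ENNReal
open Run7.h943.FP
open Pool.Agent.N521.FL (lint_pi meas_pdf)

/-- density of the square root of an exponential variable -/
noncomputable def rho (r : ℝ) : ℝ≥0∞ := ENNReal.ofReal (if 0 < r then 2 * r * Real.exp (-(r ^ 2)) else 0)

theorem rho_meas : Measurable rho := by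
  unfold rho
  refine Measurable.ennreal_ofReal ?_
  exact Measurable.ite measurableSet_Ioi (by fun_prop) measurable_const

/-- the law of the square root -/
noncomputable def sig : Measure ℝ := (volume : Measure ℝ).withDensity rho

theorem exp_map : expMeasure 1 = sig.map (fun r : ℝ => r ^ 2) := by
  have hsq : Measurable (fun r : ℝ => r ^ 2) := by fun_prop
  ext A hA
  rw [Measure.map_apply hsq hA]
  have e1 : expMeasure 1 = (volume : Measure ℝ).withDensity (exponentialPDF 1) := rfl
  rw [e1, withDensity_apply _ hA]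
  unfold sig
  rw [withDensity_apply _ (hsq hA)]
  have h1 : ∫⁻ x in A, exponentialPDF 1 x = ∫⁻ x in Ioi 0, A.indicator (exponentialPDF 1) x := by
    rw [← lintegral_indicator hA, ← lintegral_indicator measurableSet_Ioi]
    refine lintegral_congr_ae ?_
    have h0 : ∀ᵐ x : ℝ, x ≠ 0 := Measure.ae_ne volume 0
    filter_upwards [h0] with x hx
    by_cases hx0 : 0 < x
    · rw [indicator_of_mem (mem_Ioi.2 hx0)]
    · rw [indicator_of_notMem (s := Ioi (0 : ℝ)) (by rwa [mem_Ioi])]
      have h2 : x < 0 := lt_of_le_of_ne (not_lt.1 hx0) hx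
      by_cases hxA : x ∈ A
      · rw [indicator_of_mem hxA, exponentialPDF_of_neg h2]
      · rw [indicator_of_notMem hxA]
  have h2 : (fun r : ℝ => r ^ 2) '' Ioi 0 = Ioi 0 := by
    ext x
    constructor
    · rintro ⟨r, hr, rfl⟩
      exact pow_pos (mem_Ioi.1 hr) 2
    · intro hx
      exact ⟨√x, Real.sqrt_pos.2 hx, Real.sq_sqrt (mem_Ioi.1 hx).le⟩
  have h3 := lintegral_image_eq_lintegral_abs_deriv_mul (s := Ioi (0 : ℝ)) (f := fun r : ℝ => r ^ 2)
    (f' := fun r => 2 * r) measurableSet_Ioi (fun x _ => by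
      have := (hasDerivAt_pow 2 x).hasDerivWithinAt (s := Ioi (0 : ℝ))
      simpa using this) (fun x hx y hy hxy => by
      have hx' : 0 < x := hx
      have hy' : 0 < y := hy
      exact (pow_left_inj₀ hx'.le hy'.le two_ne_zero).1 hxy) (A.indicator (exponentialPDF 1))
  rw [h2] at h3
  rw [h1, h3, ← lintegral_indicator (hsq hA), ← lintegral_indicator measurableSet_Ioi]
  refine lintegral_congr fun r => ?_
  by_cases hr : 0 < r
  · rw [indicator_of_mem (mem_Ioi.2 hr)]
    by_cases hA' : r ^ 2 ∈ A
    · rw [indicator_of_mem hA', indicator_of_mem (s := (fun r : ℝ => r ^ 2) ⁻¹' A) (by exact hA')]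
      unfold rho
      rw [if_pos hr, exponentialPDF_eq, if_pos (by positivity), ← ENNReal.ofReal_mul (by positivity),
        abs_of_pos (by positivity)]
      congr 1
      ring_nf
    · rw [indicator_of_notMem hA', indicator_of_notMem (s := (fun r : ℝ => r ^ 2) ⁻¹' A) (by exact hA'), mul_zero]
  · rw [indicator_of_notMem (s := Ioi (0 : ℝ)) (by rwa [mem_Ioi])]
    have h4 : rho r = 0 := by
      unfold rho
      rw [if_neg hr, ENNReal.ofReal_zero]
    by_cases hA' : r ^ 2 ∈ A
    · rw [indicator_of_mem (s := (fun r : ℝ => r ^ 2) ⁻¹' A) (by exact hA'), h4]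
    · rw [indicator_of_notMem (s := (fun r : ℝ => r ^ 2) ⁻¹' A) (by exact hA')]

theorem sig_univ : sig univ = 1 := by
  haveI : IsProbabilityMeasure (expMeasure 1) := isProbabilityMeasure_expMeasure one_pos
  have h := measure_univ (μ := expMeasure 1)
  rwa [exp_map, Measure.map_apply (by fun_prop) MeasurableSet.univ, preimage_univ] at h

instance : IsProbabilityMeasure sig := ⟨sig_univ⟩

/-- the product has a density -/
theorem pi_sig (n : ℕ) : (Measure.pi fun _ : Fin n => sig) =
    (volume : Measure (Fin n → ℝ)).withDensity (fun x => ∏ i, rho (x i)) := by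
  apply Measure.pi_eq
  intro s hs
  rw [withDensity_apply _ (MeasurableSet.univ_pi hs), volume_pi, Measure.restrict_pi_pi,
    lint_pi _ _ (fun _ => rho_meas)]
  apply Finset.prod_congr rfl
  intro i _
  unfold sig
  rw [withDensity_apply _ (hs i)]

theorem pi_exp (n : ℕ) : (Measure.pi fun _ : Fin n => expMeasure 1) =
    (Measure.pi fun _ : Fin n => sig).map (fun x i => (x i) ^ 2) := by
  haveI : IsProbabilityMeasure (expMeasure 1) := isProbabilityMeasure_expMeasure one_pos
  haveI : ∀ i : Fin n, SigmaFinite (sig.map (fun r : ℝ => r ^ 2)) := fun i => by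
    rw [← exp_map]
    infer_instance
  have h := Measure.pi_map_pi (μ := fun _ : Fin n => sig) (f := fun _ (r : ℝ) => r ^ 2)
    (fun i => (by fun_prop : Measurable (fun r : ℝ => r ^ 2)).aemeasurable)
  rw [h]
  congr 1
  funext i
  exact exp_map

/-- strong log-concavity -/
theorem rho_mul {x y : ℝ} (hx : 0 < x) (hy : 0 < y) :
    rho x * rho y ≤ rho ((x + y) / 2) ^ 2 * ENNReal.ofReal (Real.exp (-((x - y) ^ 2 / 2))) := by
  unfold rho
  rw [if_pos hx, if_pos hy, if_pos (by linarith), ← ENNReal.ofReal_mul (by positivity),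
    ← ENNReal.ofReal_pow (by positivity), ← ENNReal.ofReal_mul (by positivity)]
  apply ENNReal.ofReal_le_ofReal
  have h1 : 2 * x * Real.exp (-(x ^ 2)) * (2 * y * Real.exp (-(y ^ 2))) =
      4 * (x * y) * (Real.exp (-(x ^ 2)) * Real.exp (-(y ^ 2))) := by ring
  have h2 : (2 * ((x + y) / 2) * Real.exp (-(((x + y) / 2) ^ 2))) ^ 2 * Real.exp (-((x - y) ^ 2 / 2)) =
      4 * ((x + y) / 2) ^ 2 * (Real.exp (-(((x + y) / 2) ^ 2)) * Real.exp (-(((x + y) / 2) ^ 2)) *
        Real.exp (-((x - y) ^ 2 / 2))) := by ring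
  rw [h1, h2, ← Real.exp_add, ← Real.exp_add, ← Real.exp_add]
  have h3 : -(x ^ 2) + -(y ^ 2) = -(((x + y) / 2) ^ 2) + -(((x + y) / 2) ^ 2) + -((x - y) ^ 2 / 2) := by ring
  rw [h3]
  refine mul_le_mul_of_nonneg_right ?_ (Real.exp_pos _).le
  nlinarith [sq_nonneg (x - y)]

theorem rho_zero {x : ℝ} (hx : x ≤ 0) : rho x = 0 := by
  unfold rho
  rw [if_neg (not_lt.2 hx), ENNReal.ofReal_zero]

/-- **SQ.** -/
theorem t_SQ : S_SQ := by
  intro n A B d hA hB hd H
  have hsq : Measurable (fun (x : Fin n → ℝ) i => (x i) ^ 2) := by fun_prop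
  have hρ : Measurable (fun x : Fin n → ℝ => ∏ i, rho (x i)) :=
    Finset.measurable_prod _ fun i _ => rho_meas.comp (measurable_pi_apply i)
  set A' := (fun (x : Fin n → ℝ) i => (x i) ^ 2) ⁻¹' A with hA'
  set B' := (fun (x : Fin n → ℝ) i => (x i) ^ 2) ⁻¹' B with hB'
  have hmA : MeasurableSet A' := hsq hA
  have hmB : MeasurableSet B' := hsq hB
  have h := Pool.Agent.Helper392.Mey.PL.pln n
    (A'.indicator fun x : Fin n → ℝ => ∏ i, rho (x i))
    (B'.indicator fun x : Fin n → ℝ => ∏ i, rho (x i))
    (fun x : Fin n → ℝ => ENNReal.ofReal (Real.exp (-(d ^ 2 / 4))) * ∏ i, rho (x i))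
    (hρ.indicator hmA) (hρ.indicator hmB) (hρ.const_mul _) ?_
  · rw [lintegral_indicator hmA, lintegral_indicator hmB, lintegral_const_mul _ hρ] at h
    have h1 : ∫⁻ x : Fin n → ℝ, ∏ i, rho (x i) = 1 := by
      have h2 := measure_univ (μ := Measure.pi fun _ : Fin n => sig)
      rw [pi_sig, withDensity_apply _ MeasurableSet.univ, Measure.restrict_univ] at h2
      exact h2
    rw [h1, mul_one, ← ENNReal.ofReal_pow (Real.exp_pos _).le, ← Real.exp_nat_mul] at h
    rw [pi_exp, Measure.map_apply hsq hA, Measure.map_apply hsq hB, pi_sig, withDensity_apply _ hmA,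
      withDensity_apply _ hmB]
    refine h.trans (le_of_eq ?_)
    congr 2
    push_cast
    ring
  · intro s t
    by_cases hs : s ∈ A'
    · by_cases ht : t ∈ B'
      · rw [indicator_of_mem hs, indicator_of_mem ht]
        by_cases hpos : (∀ i, 0 < s i) ∧ ∀ i, 0 < t i
        · obtain ⟨hs0, ht0⟩ := hpos
          have h1 := H _ hs _ ht (fun i => sq_nonneg _) (fun i => sq_nonneg _)
          have h2 : ∀ i, √((s i) ^ 2) = s i := fun i => Real.sqrt_sq (hs0 i).le
          have h3 : ∀ i, √((t i) ^ 2) = t i := fun i => Real.sqrt_sq (ht0 i).le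
          simp only [h2, h3] at h1
          rw [← Finset.prod_mul_distrib]
          calc ∏ i, rho (s i) * rho (t i)
              ≤ ∏ i, rho ((s i + t i) / 2) ^ 2 * ENNReal.ofReal (Real.exp (-((s i - t i) ^ 2 / 2))) :=
                Finset.prod_le_prod' fun i _ => rho_mul (hs0 i) (ht0 i)
            _ = (∏ i, rho ((s i + t i) / 2)) ^ 2 *
                ENNReal.ofReal (Real.exp (-(∑ i, (s i - t i) ^ 2 / 2))) := by
                rw [Finset.prod_mul_distrib, Finset.prod_pow,
                  ← ENNReal.ofReal_prod_of_nonneg fun i _ => (Real.exp_pos _).le, ← Real.exp_sum,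
                  Finset.sum_neg_distrib]
            _ ≤ (∏ i, rho ((s i + t i) / 2)) ^ 2 *
                ENNReal.ofReal (Real.exp (-(d ^ 2 / 4))) ^ 2 := by
                refine mul_le_mul_right ?_ _
                rw [← ENNReal.ofReal_pow (Real.exp_pos _).le, ← Real.exp_nat_mul]
                apply ENNReal.ofReal_le_ofReal
                apply Real.exp_le_exp.2
                rw [← Finset.sum_div]
                push_cast
                linarith
            _ = _ := by rw [mul_pow, mul_comm]
        · have h0 : (∏ i, rho (s i)) * ∏ i, rho (t i) = 0 := by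
            rw [not_and_or] at hpos
            rcases hpos with h4 | h4
            · push Not at h4
              obtain ⟨i, hi⟩ := h4
              rw [Finset.prod_eq_zero (Finset.mem_univ i) (rho_zero hi), zero_mul]
            · push Not at h4
              obtain ⟨i, hi⟩ := h4
              rw [Finset.prod_eq_zero (f := fun i => rho (t i)) (Finset.mem_univ i) (rho_zero hi), mul_zero]
          rw [h0]
          exact zero_le
      · rw [indicator_of_notMem ht, mul_zero]
        exact zero_le
    · rw [indicator_of_notMem hs, zero_mul]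
      exact zero_le

end Run7.h416.FP
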